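import Mathlib

set_option autoImplicit false

namespace Pool.Agent.Results.MP_36fb0d_co.OnlyOne

open Filter

/-- The second ultrafilter exponentiation on the positive integers. -/
def E2 (p q : Ultrafilter ℕ+) : Ultrafilter ℕ+ :=
  p.bind fun n => q.map fun m => m ^ (n : ℕ)

theorem mem_E2 (p q : Ultrafilter ℕ+) (A : Set ℕ+) :
    A ∈ E2 p q ↔ {n : ℕ+ | {m : ℕ+ | m ^ (n : ℕ) ∈ A} ∈ q} ∈ p := Iff.rfl

/-! ### Generalities on an ultrafilter on `ℕ` -/

theorem same_res (u : Ultrafilter ℕ) (f : ℕ → ℕ) (M : ℕ) (hM : M ≠ 0) :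
    ∀ᶠ b in (u : Filter ℕ), ∀ᶠ w in (u : Filter ℕ), (M : ℤ) ∣ (f b : ℤ) - (f w : ℤ) := by
  have : NeZero M := ⟨hM⟩
  obtain ⟨c, hc⟩ := Ultrafilter.eq_pure_of_finite (u.map (fun b => (f b : ZMod M)))
  have h : ∀ᶠ b in (u : Filter ℕ), (f b : ZMod M) = c := by
    have : {x : ZMod M | x = c} ∈ u.map (fun b => (f b : ZMod M)) := by
      rw [hc]; exact Ultrafilter.mem_pure.2 rfl
    exact this
  filter_upwards [h] with b hb
  filter_upwards [h] with w hw
  rw [← ZMod.intCast_zmod_eq_zero_iff_dvd]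
  push_cast
  rw [hb, hw, sub_self]

/-- A statistic which is a sequence of naturals that is shifted by the operation cannot exist. -/
theorem chain_false (u : Ultrafilter ℕ)
    (hE : ∀ S : ℕ → Prop, (∀ᶠ z in (u : Filter ℕ), S z) ↔ ∀ᶠ a in (u : Filter ℕ), ∀ᶠ b in (u : Filter ℕ), S (b ^ a))
    (T : ℕ → ℕ → ℕ)
    (hT : ∀ᶠ a in (u : Filter ℕ), ∀ᶠ b in (u : Filter ℕ), T (b ^ a) 1 < T (b ^ a) 0 ∧ ∀ n, T (b ^ a) (n + 1) = T a n) :
    False := by
  classical
  have hex : ∀ z, ∃ n, T z n ≤ T z (n + 1) := by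
    intro z
    by_contra h
    push Not at h
    exact not_strictAnti_of_wellFoundedLT (T z) (strictAnti_nat_of_succ_lt h)
  let L : ℕ → ℕ := fun z => Nat.find (hex z)
  have hL : ∀ᶠ a in (u : Filter ℕ), ∀ᶠ b in (u : Filter ℕ), L (b ^ a) = L a + 1 := by
    filter_upwards [hT] with a ha
    filter_upwards [ha] with b hb
    obtain ⟨h0, h1⟩ := hb
    refine (Nat.find_eq_iff _).2 ⟨?_, ?_⟩
    · rw [h1, h1]; exact Nat.find_spec (hex a)
    · intro n hn
      rcases n with _ | n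
      · exact not_le.2 h0
      · rw [h1, h1]
        exact Nat.find_min (hex a) (show n < L a by omega)
  by_cases h : ∀ᶠ z in (u : Filter ℕ), Even (L z)
  · have h1 := (hE _).1 h
    have h2 : ∀ᶠ _a in (u : Filter ℕ), False := by
      filter_upwards [h1, hL, h] with a ha hb hc
      obtain ⟨b, hb1, hb2⟩ := (ha.and hb).exists
      rw [hb2] at hb1
      exact absurd hb1 (by rw [Nat.even_add_one]; simpa using hc)
    exact h2.exists.elim fun _ h => h
  · have h' : ∀ᶠ z in (u : Filter ℕ), ¬ Even (L z) := Ultrafilter.eventually_not.2 h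
    have h1 := (hE _).1 h'
    have h2 : ∀ᶠ _a in (u : Filter ℕ), False := by
      filter_upwards [h1, hL, h'] with a ha hb hc
      obtain ⟨b, hb1, hb2⟩ := (ha.and hb).exists
      rw [hb2, Nat.even_add_one, not_not] at hb1
      exact hc hb1
    exact h2.exists.elim fun _ h => h

theorem sSup_Iic_nat (n : ℕ) (s : Set ℕ) (h : ∀ j, j ∈ s ↔ j ≤ n) : sSup s = n := by
  have : s = Set.Iic n := by ext j; exact h j
  rw [this]; exact csSup_Iic

/-! ### Case 1: some prime divides almost every element -/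

theorem case1 (u : Ultrafilter ℕ)
    (hE : ∀ S : ℕ → Prop, (∀ᶠ z in (u : Filter ℕ), S z) ↔
      ∀ᶠ a in (u : Filter ℕ), ∀ᶠ b in (u : Filter ℕ), S (b ^ a))
    (hN : ∀ N, ∀ᶠ z in (u : Filter ℕ), N < z) (P : ℕ) (hP : P.Prime) (hd : ∀ᶠ b in (u : Filter ℕ), P ∣ b) : False := by
  classical
  have h1 : ∀ᶠ b in (u : Filter ℕ), 1 ≤ b.factorization P := by
    filter_upwards [hd, hN 0] with b hb h0
    exact (hP.dvd_iff_one_le_factorization (by omega)).1 hb
  have hbig : ∀ N, ∀ᶠ b in (u : Filter ℕ), N ≤ b.factorization P := by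
    intro N
    rw [hE]
    filter_upwards [hN N] with a ha
    filter_upwards [h1] with b hb
    rw [Nat.factorization_pow]
    simp only [Finsupp.coe_smul, Pi.smul_apply, smul_eq_mul]
    nlinarith
  let r : ℕ → ℕ := fun z => (z.factorization P).factorization P
  let C : ℕ → ℕ := fun m => sSup {j : ℕ | ∀ᶠ w in (u : Filter ℕ), ((P : ℤ)) ^ j ∣ (m : ℤ) - (r w : ℤ)}
  have hr : ∀ᶠ a in (u : Filter ℕ), ∀ᶠ b in (u : Filter ℕ), r (b ^ a) = a.factorization P + r b := by
    filter_upwards [hN 0] with a ha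
    filter_upwards [h1] with b hb
    show ((b ^ a).factorization P).factorization P = _
    rw [Nat.factorization_pow]
    simp only [Finsupp.coe_smul, Pi.smul_apply, smul_eq_mul]
    rw [Nat.factorization_mul (by omega) (by omega)]
    rfl
  have hC : ∀ᶠ a in (u : Filter ℕ), ∀ᶠ b in (u : Filter ℕ), C (r (b ^ a)) = r a := by
    filter_upwards [hr, h1] with a ha ha1
    have hM : P ^ (r a + 1) ≠ 0 := pow_ne_zero _ hP.ne_zero
    filter_upwards [ha, same_res u r _ hM] with b hb hb2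
    rw [hb]
    apply sSup_Iic_nat
    intro j
    simp only [Set.mem_ofPred_eq]
    have key : ∀ j, j ≤ r a + 1 → ((∀ᶠ w in (u : Filter ℕ), ((P : ℤ)) ^ j ∣
        ((a.factorization P + r b : ℕ) : ℤ) - (r w : ℤ)) ↔ P ^ j ∣ a.factorization P) := by
      intro j hj
      have hdiv : ((P : ℤ)) ^ j ∣ ((P ^ (r a + 1) : ℕ) : ℤ) := by
        push_cast
        exact pow_dvd_pow _ hj
      constructor
      · intro h
        obtain ⟨w, hw1, hw2⟩ := (h.and hb2).exists
        have h3 := dvd_trans hdiv hw2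
        have h4 : ((P : ℤ)) ^ j ∣ ((a.factorization P : ℕ) : ℤ) := by
          have := dvd_sub hw1 h3
          push_cast at this
          have e : ((a.factorization P : ℤ) + (r b : ℤ) - (r w : ℤ)) - ((r b : ℤ) - (r w : ℤ))
            = (a.factorization P : ℤ) := by ring
          rwa [e] at this
        exact_mod_cast h4
      · intro h
        filter_upwards [hb2] with w hw
        have h3 := dvd_trans hdiv hw
        have h4 : ((P : ℤ)) ^ j ∣ ((a.factorization P : ℕ) : ℤ) := by exact_mod_cast h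
        have := dvd_add h4 h3
        push_cast
        have e : (a.factorization P : ℤ) + ((r b : ℤ) - (r w : ℤ))
          = (a.factorization P : ℤ) + (r b : ℤ) - (r w : ℤ) := by ring
        rwa [e] at this
    have hf : ∀ j, P ^ j ∣ a.factorization P ↔ j ≤ r a := by
      intro j
      exact hP.pow_dvd_iff_le_factorization (by omega)
    constructor
    · intro h
      by_contra hlt
      have h5 : ∀ᶠ w in (u : Filter ℕ), ((P : ℤ)) ^ (r a + 1) ∣
          ((a.factorization P + r b : ℕ) : ℤ) - (r w : ℤ) := by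
        filter_upwards [h] with w hw
        exact dvd_trans (pow_dvd_pow _ (by omega)) hw
      have h6 := (hf _).1 ((key _ le_rfl).1 h5)
      omega
    · intro h
      exact (key j (by omega)).2 ((hf j).2 h)
  refine chain_false u hE (fun z n => C^[n] (r z)) ?_
  filter_upwards [hr, hC, h1] with a ha hc ha1
  filter_upwards [ha, hc] with b hb hcb
  constructor
  · show C (r (b ^ a)) < r (b ^ a)
    rw [hcb, hb]
    have : r a < a.factorization P := Nat.factorization_lt _ (by omega)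
    omega
  · intro n
    show C^[n + 1] (r (b ^ a)) = C^[n] (r a)
    rw [Function.iterate_succ_apply, hcb]

/-! ### Case 2: no prime divides almost every element -/

/-- Levels at which the family `Y` fails. -/
def Ks (Y : ℕ → Set ℕ) : Set ℕ := {k | ∃ q : ℕ, q.Prime ∧ q ≤ k ∧ 2 ^ k ∉ Y q}

noncomputable def K (Y : ℕ → Set ℕ) : ℕ := sInf (Ks Y)

def Ps (Y : ℕ → Set ℕ) : Set ℕ := {q : ℕ | q.Prime ∧ q ≤ K Y ∧ 2 ^ K Y ∉ Y q}

noncomputable def pr (Y : ℕ → Set ℕ) : ℕ := sInf (Ps Y)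

noncomputable def val (q : ℕ) (D : Set ℕ) : ℕ := sInf {j : ℕ | q ^ (j + 1) ∉ D}

def V (z : ℕ) : ℕ → Set ℕ := fun q => {M | M ∣ z.factorization q}

noncomputable def g (z : ℕ) : ℕ := z.factorization (pr (V z))

def R (u : Ultrafilter ℕ) (D : Set ℕ) : ℕ → Set ℕ := fun q =>
  {M : ℕ | ∀ᶠ w in (u : Filter ℕ), (M : ℤ) ∣ (val q D : ℤ) - ((g w).factorization q : ℤ)}

noncomputable def RR (u : Ultrafilter ℕ) (Y : ℕ → Set ℕ) : ℕ → Set ℕ := R u (Y (pr Y))

theorem K_mem {Y : ℕ → Set ℕ} (h : (Ks Y).Nonempty) : K Y ∈ Ks Y := Nat.sInf_mem h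

theorem pr_mem {Y : ℕ → Set ℕ} (h : (Ks Y).Nonempty) : pr Y ∈ Ps Y := by
  apply Nat.sInf_mem
  obtain ⟨q, h1, h2, h3⟩ := K_mem h
  exact ⟨q, h1, h2, h3⟩

theorem K_congr {Y Y' : ℕ → Set ℕ} (hY : (Ks Y).Nonempty)
    (h : ∀ q : ℕ, q.Prime → q ≤ K Y → ∀ j ≤ K Y, (2 ^ j ∈ Y' q ↔ 2 ^ j ∈ Y q)) :
    K Y' = K Y ∧ pr Y' = pr Y := by
  have hK := K_mem hY
  have h1 : K Y ∈ Ks Y' := by
    obtain ⟨q, h1, h2, h3⟩ := hK
    exact ⟨q, h1, h2, fun hh => h3 ((h q h1 h2 _ le_rfl).1 hh)⟩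
  have hKK : K Y' = K Y := by
    apply le_antisymm (Nat.sInf_le h1)
    by_contra hlt
    have hlt : K Y' < K Y := not_le.1 hlt
    obtain ⟨q, h4, h5, h6⟩ := K_mem ⟨_, h1⟩
    have : K Y' ∈ Ks Y := ⟨q, h4, h5, fun hh => h6 ((h q h4 (by omega) _ (by omega)).2 hh)⟩
    have := Nat.sInf_le this
    change K Y ≤ K Y' at this
    omega
  refine ⟨hKK, ?_⟩
  have : Ps Y' = Ps Y := by
    ext q
    unfold Ps
    simp only [Set.mem_ofPred_eq, hKK]
    constructor
    · rintro ⟨a, b, c⟩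
      exact ⟨a, b, fun hh => c ((h q a b _ le_rfl).2 hh)⟩
    · rintro ⟨a, b, c⟩
      exact ⟨a, b, fun hh => c ((h q a b _ le_rfl).1 hh)⟩
  unfold pr
  rw [this]

theorem val_congr {q n : ℕ} {D D' : Set ℕ} (hn : val q D = n) (hD : q ^ (n + 1) ∉ D)
    (h : ∀ j ≤ n, (q ^ (j + 1) ∈ D' ↔ q ^ (j + 1) ∈ D)) : val q D' = n := by
  unfold val
  apply le_antisymm
  · apply Nat.sInf_le
    exact fun hh => hD ((h n le_rfl).1 hh)
  · apply le_csInf
    · exact ⟨n, fun hh => hD ((h n le_rfl).1 hh)⟩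
    · intro j hj
      by_contra hlt
      push Not at hlt
      have : j ∈ {j : ℕ | q ^ (j + 1) ∉ D} := fun hh => hj ((h j hlt.le).2 hh)
      have := Nat.sInf_le this
      change val q D ≤ j at this
      omega

theorem val_dvd {q N : ℕ} (hq : q.Prime) (hN : N ≠ 0) :
    val q {M | M ∣ N} = N.factorization q := by
  unfold val
  apply le_antisymm
  · apply Nat.sInf_le
    simp only [Set.mem_ofPred_eq]
    exact Nat.pow_succ_factorization_not_dvd hN hq
  · apply le_csInf
    · exact ⟨N.factorization q, Nat.pow_succ_factorization_not_dvd hN hq⟩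
    · intro j hj
      by_contra hlt
      push Not at hlt
      apply hj
      exact (hq.pow_dvd_iff_le_factorization hN).2 hlt

theorem V_nonempty {z : ℕ} (hz : 2 ≤ z) : (Ks (V z)).Nonempty := by
  obtain ⟨q, hq, hqz⟩ := Nat.exists_prime_and_dvd (show z ≠ 1 by omega)
  have h1 : 1 ≤ z.factorization q := (hq.dvd_iff_one_le_factorization (by omega)).1 hqz
  refine ⟨max q (z.factorization q), q, hq, le_max_left _ _, ?_⟩
  intro h
  have h2 := Nat.le_of_dvd (by omega) (show 2 ^ _ ∣ z.factorization q from h)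
  have h3 : z.factorization q ≤ max q (z.factorization q) := le_max_right _ _
  have h4 : max q (z.factorization q) < 2 ^ max q (z.factorization q) := Nat.lt_two_pow_self
  omega

theorem g_ne_zero {z : ℕ} (hz : 2 ≤ z) : g z ≠ 0 := by
  obtain ⟨_, _, h⟩ := pr_mem (V_nonempty hz)
  intro h0
  apply h
  show 2 ^ _ ∣ z.factorization (pr (V z))
  unfold g at h0
  rw [h0]
  exact dvd_zero _

theorem V_pow {a b : ℕ} (ha : Odd a) (hb : 2 ≤ b) :
    K (V (b ^ a)) = K (V b) ∧ pr (V (b ^ a)) = pr (V b) := by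
  apply K_congr (V_nonempty hb)
  intro q hq _ j _
  show 2 ^ j ∣ (b ^ a).factorization q ↔ 2 ^ j ∣ b.factorization q
  rw [Nat.factorization_pow]
  simp only [Finsupp.coe_smul, Pi.smul_apply, smul_eq_mul]
  constructor
  · intro h
    exact (Nat.Coprime.pow_left _ (Nat.coprime_two_left.2 ha)).dvd_of_dvd_mul_left h
  · intro h
    exact Dvd.dvd.mul_left h _

theorem g_pow {a b : ℕ} (ha : Odd a) (hb : 2 ≤ b) : g (b ^ a) = a * g b := by
  unfold g
  rw [(V_pow ha hb).2, Nat.factorization_pow]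
  simp

/-- Claim A: what is recovered from `b ^ a`. -/
theorem claimA (u : Ultrafilter ℕ) (hN : ∀ N, ∀ᶠ z in (u : Filter ℕ), N < z) {a : ℕ}
    (ha : Odd a) (B M0 : ℕ) (hM0 : M0 ≠ 0) :
    ∀ᶠ b in (u : Filter ℕ), ∀ q ≤ B, q.Prime → ∀ M, M ∣ M0 →
      (M ∈ RR u (V (b ^ a)) q ↔ M ∈ V a q) := by
  have h1 : ∀ᶠ b in (u : Filter ℕ), ∀ q ∈ Set.Iic B, ∀ᶠ w in (u : Filter ℕ),
      (M0 : ℤ) ∣ ((g b).factorization q : ℤ) - ((g w).factorization q : ℤ) := by
    rw [Filter.eventually_all_finite (Set.finite_Iic B)]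
    intro q _
    exact same_res u (fun b => (g b).factorization q) M0 hM0
  filter_upwards [h1, hN 1] with b hb hb1 q hq hqp M hM
  have hb2 := hb q hq
  have hg : g (b ^ a) = a * g b := g_pow ha hb1
  have ha0 : a ≠ 0 := by rintro rfl; exact absurd ha (by decide)
  have hval : val q (V (b ^ a) (pr (V (b ^ a)))) = a.factorization q + (g b).factorization q := by
    show val q {M | M ∣ g (b ^ a)} = _
    rw [hg, val_dvd hqp (Nat.mul_ne_zero ha0 (g_ne_zero hb1)),
      Nat.factorization_mul ha0 (g_ne_zero hb1)]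
    rfl
  show (∀ᶠ w in (u : Filter ℕ), (M : ℤ) ∣
    ((val q (V (b ^ a) (pr (V (b ^ a)))) : ℕ) : ℤ) - ((g w).factorization q : ℤ)) ↔
      M ∣ a.factorization q
  rw [hval]
  have hMM : (M : ℤ) ∣ (M0 : ℤ) := by exact_mod_cast hM
  constructor
  · intro h
    obtain ⟨w, hw1, hw2⟩ := (h.and hb2).exists
    have h4 : (M : ℤ) ∣ ((a.factorization q : ℕ) : ℤ) := by
      have := dvd_sub hw1 (dvd_trans hMM hw2)
      push_cast at this
      have e : ((a.factorization q : ℤ) + ((g b).factorization q : ℤ)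
        - ((g w).factorization q : ℤ)) - (((g b).factorization q : ℤ)
        - ((g w).factorization q : ℤ)) = (a.factorization q : ℤ) := by ring
      rwa [e] at this
    exact_mod_cast h4
  · intro h
    filter_upwards [hb2] with w hw
    have h4 : (M : ℤ) ∣ ((a.factorization q : ℕ) : ℤ) := by exact_mod_cast h
    have := dvd_add h4 (dvd_trans hMM hw)
    push_cast
    have e : (a.factorization q : ℤ) + (((g b).factorization q : ℤ)
        - ((g w).factorization q : ℤ))
      = (a.factorization q : ℤ) + ((g b).factorization q : ℤ)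
        - ((g w).factorization q : ℤ) := by ring
    rwa [e] at this

/-- Claim B: families that agree with `V a` far enough have the same future. -/
theorem claimB (u : Ultrafilter ℕ) {a : ℕ} (ha : 2 ≤ a) (hR : (Ks (RR u (V a))).Nonempty)
    {B M0 : ℕ} (hB1 : K (V a) ≤ B) (hB2 : K (RR u (V a)) ≤ B)
    (hM1 : ∀ j ≤ B, 2 ^ j ∣ M0) (hM2 : ∀ q ≤ B, q.Prime → ∀ j ≤ g a, q ^ (j + 1) ∣ M0)
    {Y : ℕ → Set ℕ} (hY : ∀ q ≤ B, q.Prime → ∀ M, M ∣ M0 → (M ∈ Y q ↔ M ∈ V a q)) :
    ∀ n, K ((RR u)^[n] Y) = K ((RR u)^[n] (V a)) := by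
  have hne := V_nonempty ha
  obtain ⟨k0, p0⟩ := K_congr (Y := V a) (Y' := Y) hne
    (fun q hq hqk j hj => hY q (hqk.trans hB1) hq _ (hM1 j (hj.trans hB1)))
  obtain ⟨hp1, hp2, hp3⟩ := pr_mem hne
  have hval : ∀ q ≤ B, q.Prime → val q (Y (pr Y)) = val q (V a (pr (V a))) := by
    intro q hq hqp
    rw [p0]
    have e : val q (V a (pr (V a))) = (g a).factorization q := val_dvd hqp (g_ne_zero ha)
    have hlt : (g a).factorization q < g a := Nat.factorization_lt _ (g_ne_zero ha)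
    refine val_congr (D := V a (pr (V a))) rfl ?_ ?_
    · rw [e]
      exact Nat.pow_succ_factorization_not_dvd (g_ne_zero ha) hqp
    · intro j hj
      rw [e] at hj
      exact hY _ (hp2.trans hB1) hp1 _ (hM2 q hq hqp j (by omega))
  have hRR : ∀ q ≤ B, q.Prime → RR u Y q = RR u (V a) q := by
    intro q hq hqp
    show {M : ℕ | ∀ᶠ w in (u : Filter ℕ), (M : ℤ) ∣
      (val q (Y (pr Y)) : ℤ) - ((g w).factorization q : ℤ)} = _
    rw [hval q hq hqp]
    rfl
  obtain ⟨k1, p1⟩ := K_congr (Y := RR u (V a)) (Y' := RR u Y) hR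
    (fun q hq hqk j hj => by rw [hRR q (hqk.trans hB2) hq])
  obtain ⟨hs1, hs2, hs3⟩ := pr_mem hR
  have h2 : RR u (RR u Y) = RR u (RR u (V a)) := by
    show R u (RR u Y (pr (RR u Y))) = R u (RR u (V a) (pr (RR u (V a))))
    rw [p1, hRR _ (hs2.trans hB2) hs1]
  intro n
  rcases n with _ | _ | n
  · exact k0
  · exact k1
  · rw [Function.iterate_add_apply (RR u) n 2, Function.iterate_add_apply (RR u) n 2]
    show K ((RR u)^[n] (RR u (RR u Y))) = K ((RR u)^[n] (RR u (RR u (V a))))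
    rw [h2]

theorem case2 (u : Ultrafilter ℕ)
    (hE : ∀ S : ℕ → Prop, (∀ᶠ z in (u : Filter ℕ), S z) ↔
      ∀ᶠ a in (u : Filter ℕ), ∀ᶠ b in (u : Filter ℕ), S (b ^ a))
    (hN : ∀ N, ∀ᶠ z in (u : Filter ℕ), N < z)
    (hd : ∀ P : ℕ, P.Prime → ∀ᶠ b in (u : Filter ℕ), ¬ P ∣ b) : False := by
  have hodd : ∀ᶠ a in (u : Filter ℕ), Odd a := by
    filter_upwards [hd 2 Nat.prime_two] with a ha
    rcases Nat.even_or_odd a with h | h
    · exact absurd h.two_dvd ha
    · exact h
  -- the second level is nonempty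
  have hR : ∀ᶠ z in (u : Filter ℕ), (Ks (RR u (V z))).Nonempty := by
    rw [hE]
    filter_upwards [hodd, hN 1] with a ha ha1
    filter_upwards [claimA u hN ha (K (V a)) (2 ^ K (V a)) (by positivity)] with b hb
    obtain ⟨q, hq1, hq2, hq3⟩ := K_mem (V_nonempty ha1)
    exact ⟨K (V a), q, hq1, hq2, fun h => hq3 ((hb q hq2 hq1 _ dvd_rfl).1 h)⟩
  refine chain_false u hE (fun z n => K ((RR u)^[n] (V z))) ?_
  filter_upwards [hodd, hN 1, hR] with a ha ha1 hRa
  set B := max (K (V a)) (K (RR u (V a))) with hB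
  set M0 := 2 ^ B * (B.factorial) ^ (g a + 1) with hM0
  have hM0ne : M0 ≠ 0 := by
    rw [hM0]
    have := Nat.factorial_ne_zero B
    positivity
  have hbig : ∀ᶠ b in (u : Filter ℕ), ∀ q ∈ Set.Iic (K (V a)), q.Prime → ¬ q ∣ b := by
    rw [Filter.eventually_all_finite (Set.finite_Iic (K (V a)))]
    intro q _
    by_cases hq : q.Prime
    · filter_upwards [hd q hq] with b hb _ using hb
    · exact Filter.Eventually.of_forall fun b h => absurd h hq
  filter_upwards [claimA u hN ha B M0 hM0ne, hN 1, hbig] with b hb hb1 hb2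
  have hB' : ∀ n, K ((RR u)^[n] (RR u (V (b ^ a)))) = K ((RR u)^[n] (V a)) := by
    refine claimB u ha1 hRa (le_max_left _ _) (le_max_right _ _) ?_ ?_ hb
    · intro j hj
      exact Dvd.dvd.mul_right (pow_dvd_pow _ hj) _
    · intro q hq hqp j hj
      refine Dvd.dvd.mul_left ?_ _
      exact (pow_dvd_pow_of_dvd (Nat.dvd_factorial hqp.pos hq) _).trans
        (pow_dvd_pow _ (by omega))
  constructor
  · show K (RR u (V (b ^ a))) < K (V (b ^ a))
    have h0 := hB' 0
    change K (RR u (V (b ^ a))) = K (V a) at h0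
    rw [h0, (V_pow ha hb1).1]
    by_contra hlt
    push Not at hlt
    obtain ⟨q, hq1, hq2, hq3⟩ := K_mem (V_nonempty hb1)
    apply hq3
    show _ ∣ b.factorization q
    rw [Nat.factorization_eq_zero_of_not_dvd (hb2 q (hq2.trans hlt) hq1)]
    exact dvd_zero _
  · intro n
    show K ((RR u)^[n + 1] (V (b ^ a))) = K ((RR u)^[n] (V a))
    rw [Function.iterate_succ_apply, hB' n]

/-! ### The theorem -/

/-- The ultrafilter exponentiation `E_2` has exactly one idempotent, the principal ultrafilter at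
`1`; in particular it has no nonprincipal idempotent. -/
theorem result :
    (∀ (p q : Ultrafilter ℕ+) (A : Set ℕ+),
      A ∈ E2 p q ↔ {n : ℕ+ | {m : ℕ+ | m ^ (n : ℕ) ∈ A} ∈ q} ∈ p) ∧
    (∀ p : Ultrafilter ℕ+, E2 p p = p ↔ p = pure 1) := by
  refine ⟨fun p q A => Iff.rfl, fun p => ⟨fun hp => ?_, ?_⟩⟩
  · by_cases hprin : ∃ n : ℕ+, p = pure n
    · obtain ⟨n, rfl⟩ := hprin
      have h1 : {x : ℕ+ | x = n} ∈ E2 (pure n) (pure n) := by
        rw [hp]; exact Ultrafilter.mem_pure.2 rfl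
      have h2 : n ^ (n : ℕ) = n := by
        rw [mem_E2] at h1
        exact h1
      have h3 : (n : ℕ) ^ (n : ℕ) = n := by exact_mod_cast congrArg PNat.val h2
      have h4 : (n : ℕ) = 1 := by
        by_contra hne
        have hpos := n.pos
        have h5 : 1 < (n : ℕ) := by omega
        have h6 : (n : ℕ) ^ 1 < (n : ℕ) ^ (n : ℕ) := Nat.pow_lt_pow_right h5 h5
        rw [pow_one] at h6
        omega
      have : n = 1 := PNat.coe_eq_one_iff.1 h4
      rw [this]
    · exfalso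
      set u : Ultrafilter ℕ := p.map (fun n : ℕ+ => (n : ℕ)) with hu
      have hE : ∀ S : ℕ → Prop, (∀ᶠ z in (u : Filter ℕ), S z) ↔
          ∀ᶠ a in (u : Filter ℕ), ∀ᶠ b in (u : Filter ℕ), S (b ^ a) := by
        intro S
        have h1 : {n : ℕ+ | S n} ∈ p ↔ {n : ℕ+ | S n} ∈ E2 p p := by rw [hp]
        have h2 : {n : ℕ+ | S n} ∈ E2 p p ↔
          {n : ℕ+ | {m : ℕ+ | S ((m : ℕ) ^ (n : ℕ))} ∈ p} ∈ p := by
          rw [mem_E2]
          simp only [Set.mem_ofPred_eq, PNat.pow_coe]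
        exact h1.trans h2
      have hN : ∀ N, ∀ᶠ z in (u : Filter ℕ), N < z := by
        intro N
        by_contra h
        have h1 : ∀ᶠ z in (u : Filter ℕ), ¬ N < z := Ultrafilter.eventually_not.2 h
        have h2 : {n : ℕ+ | ¬ N < (n : ℕ)} ∈ p := h1
        have h3 : {n : ℕ+ | ¬ N < (n : ℕ)}.Finite := by
          apply Set.Finite.of_injOn (f := fun n : ℕ+ => (n : ℕ)) (t := Set.Iic N)
          · intro n hn
            simpa using hn
          · intro a _ b _ hab
            exact PNat.eq hab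
          · exact Set.finite_Iic N
        obtain ⟨n, -, hn⟩ := Ultrafilter.eq_pure_of_finite_mem h3 h2
        exact hprin ⟨n, hn⟩
      by_cases hex : ∃ P : ℕ, P.Prime ∧ ∀ᶠ b in (u : Filter ℕ), P ∣ b
      · obtain ⟨P, hP, hd⟩ := hex
        exact case1 u hE hN P hP hd
      · apply case2 u hE hN
        intro P hP
        by_contra h
        exact hex ⟨P, hP, by simpa using Ultrafilter.eventually_not.2 h⟩
  · rintro rfl
    have : E2 (pure 1) (pure 1) = pure 1 := by
      ext A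
      rw [mem_E2]
      show (1 : ℕ+) ^ ((1 : ℕ+) : ℕ) ∈ A ↔ (1 : ℕ+) ∈ A
      rw [one_pow]
    exact this

end Pool.Agent.Results.MP_36fb0d_co.OnlyOne
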